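import Pool.Agent.H93.TU.LastW
import Pool.Agent.H75.TH.Wrong
import Pool.Agent.H45.AC.Adm
import Pool.Agent.H10.TU.Idx

/-!
# Project TU: the last band has label zero
-/

set_option autoImplicit false

open Module QuadraticForm Filter Topology
open Pool.Agent.H47.QG (Pt action flw oseq Gen ind hess Zn MeanIdx)
open Pool.Agent.H47.ST
open Pool.Agent.H75.TH (Near Sepd Alive Wrong)
open Pool.Agent.H45.AC (Rgd)

namespace Pool.Agent.H93.TU

variable {n : ℕ}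

/-- the mean index exists -/
theorem CaseA_mean {S : ℕ → Pt n → ℝ} {f : ℕ → Pt n → Pt n} (hS : ∀ j, Gen (S j) (f j)) {N : ℕ}
    (hN : 0 < N) (hper : ∀ j, S (j + N) = S j) (hfper : ∀ j, f (j + N) = f j) (w : Pt n)
    (hw : flw f N w = w) : ∃ t, MeanIdx S f N w t ∧
      ∀ p : ℕ, 0 < p → |(ind S f (p * N) w : ℝ) - p * (t + n * N)| ≤ n := by
  obtain ⟨L, h1, h2⟩ := Pool.Agent.H47.QG.almost_additive (fun p => (ind S f (p * N) w : ℝ)) n
    (fun p q hp hq => Pool.Agent.H10.TU.ind_add_n S f hS N hN hper hfper w hw p q hp hq)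
  refine ⟨L - n * N, ?_, fun p hp => ?_⟩
  · unfold MeanIdx
    rw [sub_add_cancel]
    exact h2
  · rw [sub_add_cancel]
    exact h1 p hp

theorem CaseA_unique {S : ℕ → Pt n → ℝ} {f : ℕ → Pt n → Pt n} {N : ℕ} {w : Pt n} {t t' : ℝ}
    (h : MeanIdx S f N w t) (h' : MeanIdx S f N w t') : t = t' := by
  unfold MeanIdx at h h'
  have := tendsto_nhds_unique h h'
  linarith

/-- mean index zero: the index is at least `n (N - 1)` -/
theorem CaseA_ge {S : ℕ → Pt n → ℝ} {f : ℕ → Pt n → Pt n} (hS : ∀ j, Gen (S j) (f j)) {N : ℕ}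
    (hN : 0 < N) (hper : ∀ j, S (j + N) = S j) (hfper : ∀ j, f (j + N) = f j) (w : Pt n)
    (hw : flw f N w = w) (h : MeanIdx S f N w 0) : n * (N - 1) ≤ ind S f N w := by
  obtain ⟨t, ht, hb⟩ := CaseA_mean hS hN hper hfper w hw
  have h0 := CaseA_unique ht h
  subst h0
  have h1 := (abs_le.1 (hb 1 one_pos)).1
  rw [one_mul] at h1
  have h2 : (n : ℝ) * N ≤ ind S f N w + n := by
    push_cast at h1
    linarith
  have h3 : n * N ≤ ind S f N w + n := by exact_mod_cast h2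
  rw [Nat.mul_sub, mul_one]
  omega

/-- the critical points of a small perturbation of the action -/
theorem CaseA_tot {S : ℕ → Pt n → ℝ} {f : ℕ → Pt n → Pt n} (hS : ∀ j, Gen (S j) (f j)) {N : ℕ}
    [NeZero N] (W : Finset (Pt n)) (hW : ∀ w, flw f N w = w ↔ ∃ w' ∈ W, w - w' ∈ Zn n)
    (hWd : ∀ w ∈ W, ∀ w' ∈ W, w - w' ∈ Zn n → w = w') {C ε : ℝ} {g : (Iz n N → ℝ) → ℝ}
    (hg : Near S N C ε g) {C' R : ℝ}
    (hC' : ∀ y b, |fderiv ℝ g y (Pi.single b 1) - DK n N y b| ≤ C') (hR : Rgd n N 1 C' R) :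
    Tot (Lc n N) (qK n N) (QK n N) g R R (W.image (zw f N)) := by
  classical
  obtain ⟨hbd, hin⟩ := hR g (hg.smooth.differentiable (by norm_num))
    (fun y b => by rw [one_mul]; exact hC' y b)
  simp only [one_mul] at hbd hin
  have hdm := dom_Dm n N (s := 1) one_pos R R
  simp only [one_mul] at hdm
  have hcr := GrowA_crit hS N W hW (W.image (zw f N)) (fun z => Finset.mem_image)
  refine ⟨hdm, hg.smooth, hg.per, hbd, fun z hz => ?_, fun z hz z' hz' l hl he => ?_,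
    fun y _ _ hy => ?_⟩
  · have h0 : fderiv ℝ g z = 0 := by
      rw [hg.crit, hcr]
      exact ⟨z, hz, 0, (Lc n N).zero_mem, by rw [Sep_rl_zero, add_zero]⟩
    exact ⟨h0, hin z h0⟩
  · obtain ⟨w, hw, rfl⟩ := Finset.mem_image.1 hz
    obtain ⟨w', hw', rfl⟩ := Finset.mem_image.1 hz'
    rw [hWd w' hw' w hw ((zw_add hS _ w' w).1 ⟨l, hl, he⟩)]
  · exact (hcr y).1 ((hg.crit y).1 hy)

/-- **The last band has label zero.** -/
theorem caseA {S : ℕ → Pt n → ℝ} {f : ℕ → Pt n → Pt n} (hS : ∀ j, Gen (S j) (f j)) {N : ℕ}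
    [NeZero N] (hper : ∀ j, S (j + N) = S j) (hfper : ∀ j, f (j + N) = f j)
    (W : Finset (Pt n)) (hW : ∀ w, flw f N w = w ↔ ∃ w' ∈ W, w - w' ∈ Zn n)
    (hWd : ∀ w ∈ W, ∀ w' ∈ W, w - w' ∈ Zn n → w = w') {C ε : ℝ} {g : (Iz n N → ℝ) → ℝ}
    (hg : Near S N C ε g) (hsep : Sepd S f N g) {C' R : ℝ}
    (hC' : ∀ y b, |fderiv ℝ g y (Pi.single b 1) - DK n N y b| ≤ C') (hR : Rgd n N 1 C' R)
    {q : ℕ} [Fact q.Prime]
    (hna : ∀ w t, flw f N w = w → MeanIdx S f N w t → t ≠ 0 → ¬ Alive f N g q R (g (zw f N w)))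
    {b : ℕ} (htop : ∀ᶠ M : ℕ in atTop, ¬ HR (ZMod q) (lam (Lc n N) (2 ^ M))
      (Xm (qK n N) R (2 ^ M)) (Am (qK n N) (QK n N) R R (2 ^ M)) b 0) :
    ∃ w₀ ∈ W, MeanIdx S f N w₀ 0 ∧
      (∀ w ∈ W, g (zw f N w) = g (zw f N w₀) → MeanIdx S f N w 0 ∧ n * (N - 1) ≤ ind S f N w) ∧
      ∀ b₁ b₂, b₁ < g (zw f N w₀) → g (zw f N w₀) < b₂ →
        (∀ w ∈ W, b₁ ≤ g (zw f N w) → g (zw f N w) ≤ b₂ → g (zw f N w) = g (zw f N w₀)) →
        ∃ᶠ M : ℕ in atTop, LB (ZMod q) (lam (Lc n N) (2 ^ M)) (Xm (qK n N) R (2 ^ M))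
          (Am (qK n N) (QK n N) R R (2 ^ M)) (Lv (qK n N) (QK n N) g R R b₁ (2 ^ M))
          (Lv (qK n N) (QK n N) g R R b₂ (2 ^ M)) b := by
  classical
  have hN : 0 < N := Nat.pos_of_neZero N
  have hT := CaseA_tot hS W hW hWd hg hC' hR
  obtain ⟨z₀, hz₀, hlast⟩ := last_value (ZMod q) hT htop
  obtain ⟨w₀, hw₀, rfl⟩ := Finset.mem_image.1 hz₀
  have hfix : ∀ w ∈ W, flw f N w = w := fun w hw =>
    (hW w).2 ⟨w, hw, by rw [sub_self]; exact (Zn n).zero_mem⟩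
  have hlast' : ∀ b₁ b₂, b₁ < g (zw f N w₀) → g (zw f N w₀) < b₂ →
        (∀ w ∈ W, b₁ ≤ g (zw f N w) → g (zw f N w) ≤ b₂ → g (zw f N w) = g (zw f N w₀)) →
        ∃ᶠ M : ℕ in atTop, LB (ZMod q) (lam (Lc n N) (2 ^ M)) (Xm (qK n N) R (2 ^ M))
          (Am (qK n N) (QK n N) R R (2 ^ M)) (Lv (qK n N) (QK n N) g R R b₁ (2 ^ M))
          (Lv (qK n N) (QK n N) g R R b₂ (2 ^ M)) b := by
    intro b₁ b₂ h1 h2 h3
    refine hlast b₁ b₂ h1 h2 fun z hz => ?_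
    obtain ⟨w, hw, rfl⟩ := Finset.mem_image.1 hz
    exact h3 w hw
  -- the label is zero
  obtain ⟨t, ht, -⟩ := CaseA_mean hS hN hper hfper w₀ (hfix w₀ hw₀)
  have ht0 : t = 0 := by
    by_contra hne
    have h1 := hna w₀ t (hfix w₀ hw₀) ht hne
    unfold Alive at h1
    push Not at h1
    obtain ⟨b₁, b₂, h2, h3, h4, h5⟩ := h1
    have h6 := hlast' b₁ b₂ h2 h3 fun w hw => h4 w (hfix w hw)
    obtain ⟨M, h7, h8⟩ := (h6.and_eventually (h5 b)).exists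
    exact h7.ne (Xm_inv hT.dm.qp R (by positivity))
      (Lv_inv hT.dm.qp hT.dm.Qp hT.per R R b₂ (by positivity)) (Am_sub_Lv _ _)
      (Lv_mono _ _ _ R R (h2.trans h3).le _) (Lv_sub_Xm _ _) h8
  subst ht0
  refine ⟨w₀, hw₀, ht, fun w hw he => ?_, hlast'⟩
  obtain ⟨t', ht', -⟩ := CaseA_mean hS hN hper hfper w (hfix w hw)
  have ht'0 : t' = 0 := by
    by_contra hne
    exact hsep w w₀ t' 0 (hfix w hw) (hfix w₀ hw₀) ht' ht hne he
  subst ht'0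
  exact ⟨ht', CaseA_ge hS hN hper hfper w (hfix w hw) ht'⟩

end Pool.Agent.H93.TU
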