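import Pool.Agent.H93.TU.LastB
import Pool.Agent.H47.ST.Win
import Pool.Agent.H47.ST.Sep
import Pool.Agent.H47.ST.Fine

/-!
# Project TU: the last critical value whose band carries the bottom class
-/

set_option autoImplicit false

namespace Pool.Agent.H93.TU

open Filter Topology QuadraticForm
open Pool.Agent.H47.ST
open Pool.Agent.H47.QG (hess)

section sets

variable {ι : Type*} [Fintype ι] {F : Type*} [Field F]

/-- The band `(B, A)` carries a class of dimension `b` of `(X, A₀)`: some closed cochain vanishing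
on `A` is not exact modulo `A₀`, all closed cochains vanishing on `B` are exact modulo `A₀`. -/
def LB (F : Type*) [Field F] (L : AddSubgroup (ι → ℤ)) (X A₀ A B : Set (ι → ℤ)) (b : ℕ) : Prop :=
  (∃ u ∈ co (F := F) L X A (b + 1), dX X u = 0 ∧ ∀ y ∈ co (F := F) L X A₀ b, u ≠ dX X y) ∧
    ∀ u ∈ co (F := F) L X B (b + 1), dX X u = 0 → ∃ y ∈ co (F := F) L X A₀ b, u = dX X y

variable {L : AddSubgroup (ι → ℤ)} {X A₀ A A' B B' : Set (ι → ℤ)} {b : ℕ}

theorem LB.left_anti (h : LB F L X A₀ A B b) (hA : A' ⊆ A) : LB F L X A₀ A' B b := by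
  obtain ⟨⟨u, hu, h1, h2⟩, h3⟩ := h
  exact ⟨⟨u, co_anti hA _ hu, h1, h2⟩, h3⟩

theorem LB.right_mono (h : LB F L X A₀ A B b) (hB : B ⊆ B') : LB F L X A₀ A B' b := by
  obtain ⟨h1, h2⟩ := h
  exact ⟨h1, fun u hu => h2 u (co_anti hB _ hu)⟩

theorem LB.left (h : LB F L X A₀ A B b) (hX : Inv L X) (hA' : Inv L A') (h0 : A₀ ⊆ A)
    (hA : A ⊆ A') (hAX : A' ⊆ X) (hH : HR F L A' A b 0) : LB F L X A₀ A' B b := by
  obtain ⟨⟨u, hu, h1, h2⟩, h3⟩ := h
  have h4 := HR.rel (F := F) hX hA' hA hAX hH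
  unfold HK at h4
  rw [RK_zero] at h4
  obtain ⟨y, hy, hy'⟩ := h4 u hu (by rw [h1]; exact Submodule.zero_mem _)
  refine ⟨⟨u - dX X y, hy', by rw [map_sub, h1, dX_dX, sub_zero], fun y' hy2 he => ?_⟩, h3⟩
  refine h2 (y' + y) (Submodule.add_mem _ hy2 (co_anti h0 _ hy)) ?_
  rw [map_add, ← he, sub_add_cancel]

theorem LB.right (h : LB F L X A₀ A B b) (hX : Inv L X) (hB : Inv L B) (h0 : A₀ ⊆ B')
    (hBB : B' ⊆ B) (hBX : B ⊆ X) (hH : HR F L B B' b 0) : LB F L X A₀ A B' b := by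
  obtain ⟨h1, h3⟩ := h
  refine ⟨h1, fun u hu hd => ?_⟩
  have h4 := HR.rel (F := F) hX hB hBB hBX hH
  unfold HK at h4
  rw [RK_zero] at h4
  obtain ⟨y, hy, hy'⟩ := h4 u hu (by rw [hd]; exact Submodule.zero_mem _)
  obtain ⟨y', hy2, he⟩ := h3 _ hy' (by rw [map_sub, hd, dX_dX, sub_zero])
  refine ⟨y + y', Submodule.add_mem _ (co_anti h0 _ hy) hy2, ?_⟩
  rw [map_add, ← he]
  abel

/-- the band is not acyclic -/
theorem LB.ne (h : LB F L X A₀ A B b) (hX : Inv L X) (hB : Inv L B) (h0 : A₀ ⊆ A)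
    (hAB : A ⊆ B) (hBX : B ⊆ X) : ¬ HR F L B A b 0 := by
  obtain ⟨⟨u, hu, h1, h2⟩, h3⟩ := h
  exact (last_band_ne hX h0 hAB hBX hu h1 h2 h3).2 hB

end sets

variable {ι : Type*} [Fintype ι] [DecidableEq ι]

/-- A function on the domain, `Z` = representatives of all its critical points there. -/
structure Tot (L : AddSubgroup (ι → ℤ)) (q Q f : (ι → ℝ) → ℝ) (R a : ℝ)
    (Z : Finset (ι → ℝ)) : Prop where
  dm : Dm L q Q R a
  smooth : ContDiff ℝ 2 f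
  per : PerL L f
  bd : Bd q Q R a f
  mem : ∀ z ∈ Z, fderiv ℝ f z = 0 ∧ q z < R ∧ -a < Q z
  inj : ∀ z ∈ Z, ∀ z' ∈ Z, ∀ l ∈ L, z' = z + rl l → z' = z
  crit : ∀ y, q y ≤ R → -a ≤ Q y → fderiv ℝ f y = 0 → ∃ z ∈ Z, ∃ l ∈ L, y = z + rl l

variable {L : AddSubgroup (ι → ℤ)} {q Q f : (ι → ℝ) → ℝ} {R a : ℝ} {Z : Finset (ι → ℝ)}

/-- the bands of a function on the domain -/
theorem Tot.band (h : Tot L q Q f R a Z) {α β : ℝ} (hlt : α < β) (hα : α ∉ Z.image f)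
    (hβ : β ∉ Z.image f) : Band L q Q f R a α β (Z.filter fun z => α < f z ∧ f z < β) := by
  classical
  refine ⟨h.dm, h.smooth, h.per, h.bd, hlt, fun z hz => ?_, fun z hz z' hz' => ?_,
    fun y h1 h2 h3 h4 h5 => ?_⟩
  · rw [Finset.mem_filter] at hz
    exact ⟨(h.mem z hz.1).1, (h.mem z hz.1).2.1, (h.mem z hz.1).2.2, hz.2.1, hz.2.2⟩
  · exact h.inj z (Finset.mem_filter.1 hz).1 z' (Finset.mem_filter.1 hz').1
  · obtain ⟨z, hz, l, hl, rfl⟩ := h.crit y h1 h2 h5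
    rw [h.per l hl] at h3 h4
    refine ⟨z, Finset.mem_filter.2 ⟨hz, ?_, ?_⟩, l, hl, rfl⟩
    · exact lt_of_le_of_ne h3 fun he => hα (by rw [he]; exact Finset.mem_image_of_mem f hz)
    · exact lt_of_le_of_ne h4 fun he => hβ (by rw [← he]; exact Finset.mem_image_of_mem f hz)

/-- bands without critical values are acyclic -/
theorem Tot.acyclic (F : Type*) [Field F] (h : Tot L q Q f R a Z) {α β : ℝ} (hlt : α < β)
    (hno : ∀ z ∈ Z, ¬ (α ≤ f z ∧ f z ≤ β)) :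
    ∀ᶠ M : ℕ in atTop, ∀ j, HR F (lam L (2 ^ M)) (Lv q Q f R a β (2 ^ M))
      (Lv q Q f R a α (2 ^ M)) j 0 := by
  classical
  have hα : α ∉ Z.image f := fun hm => by
    obtain ⟨z, hz, he⟩ := Finset.mem_image.1 hm
    exact hno z hz ⟨he.ge, he.le.trans hlt.le⟩
  have hβ : β ∉ Z.image f := fun hm => by
    obtain ⟨z, hz, he⟩ := Finset.mem_image.1 hm
    exact hno z hz ⟨hlt.le.trans he.ge, he.le⟩
  have hb := h.band hlt hα hβ
  have he : (Z.filter fun z => α < f z ∧ f z < β) = ∅ := by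
    rw [Finset.filter_eq_empty_iff]
    intro z hz h1
    exact hno z hz ⟨h1.1.le, h1.2.le⟩
  rw [he] at hb
  filter_upwards [window_out F hb] with M hM j
  exact hM j fun z hz => absurd hz (Finset.notMem_empty z)

/-- the function is bounded on the domain -/
theorem Tot.bdd (h : Tot L q Q f R a Z) : ∃ B : ℝ, ∀ y, q y ≤ R → -a ≤ Q y → |f y| ≤ B := by
  obtain ⟨K, hK, hK'⟩ := h.dm.cpt
  obtain ⟨B, hB⟩ := hK.exists_bound_of_continuousOn h.smooth.continuous.continuousOn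
  refine ⟨B, fun y h1 h2 => ?_⟩
  obtain ⟨l, hl, hy⟩ := hK' y h1 h2
  have h3 := hB _ hy
  rwa [h.per l hl, Real.norm_eq_abs] at h3

theorem Lv_low {B : ℝ} (hB : ∀ y, q y ≤ R → -a ≤ Q y → |f y| ≤ B) {c : ℝ} (hc : c < -B) (m : ℕ) :
    Lv q Q f R a c m = Am q Q R a m := by
  ext v
  constructor
  · rintro ⟨h1, h2⟩
    refine ⟨h1, ?_⟩
    by_contra h3
    have h4 : f (ps m v) ≤ c := h2.resolve_left h3
    have h5 := (abs_le.1 (hB _ h1 (not_le.1 h3).le)).1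
    linarith
  · rintro ⟨h1, h2⟩
    exact ⟨h1, Or.inl h2⟩

theorem Lv_high {B : ℝ} (hB : ∀ y, q y ≤ R → -a ≤ Q y → |f y| ≤ B) {c : ℝ} (hc : B ≤ c) (m : ℕ) :
    Lv q Q f R a c m = Xm q R m := by
  ext v
  constructor
  · exact fun h1 => h1.1
  · intro h1
    have h1' : q (ps m v) ≤ R := h1
    refine ⟨h1', ?_⟩
    by_cases h3 : Q (ps m v) ≤ -a
    · exact Or.inl h3
    · exact Or.inr (((abs_le.1 (hB _ h1' (not_le.1 h3).le)).2).trans hc)

theorem Am_sub_Lv (c : ℝ) (m : ℕ) : Am q Q R a m ⊆ Lv q Q f R a c m :=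
  fun _ h => ⟨h.1, Or.inl h.2⟩

theorem Lv_sub_Xm (c : ℝ) (m : ℕ) : Lv q Q f R a c m ⊆ Xm q R m := fun _ h => h.1

/-- **The last critical value.** If the domain has cohomology in dimension `b`, then for some
critical value every thin band carries a class of dimension `b`, for infinitely many grids. -/
theorem last_value (F : Type*) [Field F] (h : Tot L q Q f R a Z) {b : ℕ}
    (htop : ∀ᶠ M : ℕ in atTop, ¬ HR F (lam L (2 ^ M)) (Xm q R (2 ^ M)) (Am q Q R a (2 ^ M)) b 0) :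
    ∃ z₀ ∈ Z, ∀ b₁ b₂, b₁ < f z₀ → f z₀ < b₂ →
      (∀ z ∈ Z, b₁ ≤ f z → f z ≤ b₂ → f z = f z₀) →
      ∃ᶠ M : ℕ in atTop, LB F (lam L (2 ^ M)) (Xm q R (2 ^ M)) (Am q Q R a (2 ^ M))
        (Lv q Q f R a b₁ (2 ^ M)) (Lv q Q f R a b₂ (2 ^ M)) b := by
  classical
  obtain ⟨B, hB⟩ := h.bdd
  obtain ⟨M0, α, hα, h0, hM0, hV1, hV2⟩ := exists_levels (Z.image f) (-B - 1) B
  have hinvX : ∀ M : ℕ, Inv (lam L (2 ^ M)) (Xm q R (2 ^ M)) := fun M =>
    Xm_inv h.dm.qp R (by positivity)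
  have hinv : ∀ (c : ℝ) (M : ℕ), Inv (lam L (2 ^ M)) (Lv q Q f R a c (2 ^ M)) := fun c M =>
    Lv_inv h.dm.qp h.dm.Qp h.per R a c (by positivity)
  -- the last band of every grid
  have hex : ∀ᶠ M : ℕ in atTop, ∃ i < M0, LB F (lam L (2 ^ M)) (Xm q R (2 ^ M))
      (Am q Q R a (2 ^ M)) (Lv q Q f R a (α i) (2 ^ M)) (Lv q Q f R a (α (i + 1)) (2 ^ M)) b := by
    filter_upwards [htop] with M hM
    have e0 : Lv q Q f R a (α 0) (2 ^ M) = Am q Q R a (2 ^ M) := Lv_low hB (by linarith) _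
    have e1 : Lv q Q f R a (α M0) (2 ^ M) = Xm q R (2 ^ M) := Lv_high hB hM0 _
    obtain ⟨i, hi, u, h1, h2, h3, h4⟩ := last_band (F := F) (L := lam L (2 ^ M))
      (X := Xm q R (2 ^ M)) (fun i => Lv q Q f R a (α i) (2 ^ M)) M0 (by rw [e1]) (b := b)
      (by rw [e0]; exact hM)
    rw [e0] at h3 h4
    exact ⟨i, hi, ⟨u, h1, h2, h3⟩, h4⟩
  -- one band for infinitely many grids
  obtain ⟨i, hi, hfr⟩ : ∃ i < M0, ∃ᶠ M : ℕ in atTop, LB F (lam L (2 ^ M)) (Xm q R (2 ^ M))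
      (Am q Q R a (2 ^ M)) (Lv q Q f R a (α i) (2 ^ M)) (Lv q Q f R a (α (i + 1)) (2 ^ M)) b := by
    by_contra hcon
    push Not at hcon
    have h1 : ∀ᶠ M : ℕ in atTop, ∀ i ∈ Finset.range M0, ¬ LB F (lam L (2 ^ M)) (Xm q R (2 ^ M))
        (Am q Q R a (2 ^ M)) (Lv q Q f R a (α i) (2 ^ M))
        (Lv q Q f R a (α (i + 1)) (2 ^ M)) b := by
      rw [Filter.eventually_all_finset]
      intro i hi
      exact hcon i (Finset.mem_range.1 hi)
    obtain ⟨M, ⟨i, hi, h2⟩, h3⟩ := (hex.and h1).exists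
    exact h3 i (Finset.mem_range.2 hi) h2
  have hlt : α i < α (i + 1) := hα (Nat.lt_succ_self i)
  -- the band contains a critical value
  obtain ⟨z₀, hz₀, h1, h2⟩ : ∃ z₀ ∈ Z, α i < f z₀ ∧ f z₀ < α (i + 1) := by
    by_contra hcon
    push Not at hcon
    have hno : ∀ z ∈ Z, ¬ (α i ≤ f z ∧ f z ≤ α (i + 1)) := by
      rintro z hz ⟨h1, h2⟩
      have h3 : α i < f z := lt_of_le_of_ne h1 fun he =>
        hV1 i (by rw [he]; exact Finset.mem_image_of_mem f hz)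
      exact hV1 (i + 1) (by
        rw [le_antisymm (hcon z hz h3) h2]; exact Finset.mem_image_of_mem f hz)
    obtain ⟨M, h3, h4⟩ := (hfr.and_eventually (h.acyclic F hlt hno)).exists
    exact h3.ne (hinvX M) (hinv _ M) (Am_sub_Lv _ _) (Lv_mono q Q f R a hlt.le _)
      (Lv_sub_Xm _ _) (h4 b)
  refine ⟨z₀, hz₀, fun b₁ b₂ hb1 hb2 huniq => ?_⟩
  have hsame : ∀ z ∈ Z, α i ≤ f z → f z ≤ α (i + 1) → f z = f z₀ := by
    intro z hz h3 h4
    have h3' : α i < f z := lt_of_le_of_ne h3 fun he =>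
      hV1 i (by rw [he]; exact Finset.mem_image_of_mem f hz)
    have h4' : f z < α (i + 1) := lt_of_le_of_ne h4 fun he =>
      hV1 (i + 1) (by rw [← he]; exact Finset.mem_image_of_mem f hz)
    exact hV2 i _ (Finset.mem_image_of_mem f hz) _ (Finset.mem_image_of_mem f hz₀) h3' h4' h1 h2
  -- left end
  have hleft : ∀ᶠ M : ℕ in atTop, LB F (lam L (2 ^ M)) (Xm q R (2 ^ M)) (Am q Q R a (2 ^ M))
      (Lv q Q f R a (α i) (2 ^ M)) (Lv q Q f R a (α (i + 1)) (2 ^ M)) b →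
      LB F (lam L (2 ^ M)) (Xm q R (2 ^ M)) (Am q Q R a (2 ^ M))
      (Lv q Q f R a b₁ (2 ^ M)) (Lv q Q f R a (α (i + 1)) (2 ^ M)) b := by
    rcases le_or_gt b₁ (α i) with hle | hgt
    · exact Eventually.of_forall fun M hM => hM.left_anti (Lv_mono q Q f R a hle _)
    · have hno : ∀ z ∈ Z, ¬ (α i ≤ f z ∧ f z ≤ b₁) := by
        rintro z hz ⟨h3, h4⟩
        have h5 := hsame z hz h3 (h4.trans (hb1.le.trans h2.le))
        linarith
      filter_upwards [h.acyclic F hgt hno] with M hM hLB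
      exact hLB.left (hinvX M) (hinv _ M) (Am_sub_Lv _ _) (Lv_mono q Q f R a hgt.le _)
        (Lv_sub_Xm _ _) (hM b)
  -- right end
  have hright : ∀ᶠ M : ℕ in atTop, LB F (lam L (2 ^ M)) (Xm q R (2 ^ M)) (Am q Q R a (2 ^ M))
      (Lv q Q f R a b₁ (2 ^ M)) (Lv q Q f R a (α (i + 1)) (2 ^ M)) b →
      LB F (lam L (2 ^ M)) (Xm q R (2 ^ M)) (Am q Q R a (2 ^ M))
      (Lv q Q f R a b₁ (2 ^ M)) (Lv q Q f R a b₂ (2 ^ M)) b := by
    rcases le_or_gt (α (i + 1)) b₂ with hle | hgt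
    · exact Eventually.of_forall fun M hM => hM.right_mono (Lv_mono q Q f R a hle _)
    · have hno : ∀ z ∈ Z, ¬ (b₂ ≤ f z ∧ f z ≤ α (i + 1)) := by
        rintro z hz ⟨h3, h4⟩
        have h5 := hsame z hz (h1.le.trans (hb2.le.trans h3)) h4
        linarith
      filter_upwards [h.acyclic F hgt hno] with M hM hLB
      exact hLB.right (hinvX M) (hinv _ M) (Am_sub_Lv _ _) (Lv_mono q Q f R a hgt.le _)
        (Lv_sub_Xm _ _) (hM b)
  exact (hfr.and_eventually (hleft.and hright)).mono fun M hM => hM.2.2 (hM.2.1 hM.1)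

end Pool.Agent.H93.TU
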