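import Pool.Agent.H93.TU.CaseB
import Pool.Agent.H16.TU.Top
import Pool.Agent.H1.TU.Case1L
import Pool.Agent.H18.TU.SDT
import Pool.Agent.H65.TU.StepR

/-!
# Project TU: case 1
-/

set_option autoImplicit false

open Module QuadraticForm Filter Topology
open Pool.Agent.H47.QG (Pt action flw oseq Gen ind hess Zn MeanIdx)
open Pool.Agent.H47.ST
open Pool.Agent.H75.TH (Near Sepd Alive Wrong)
open Pool.Agent.H45.AC (Rgd)
open Pool.Agent.H1.TU (StepP Pert)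
open Pool.Agent.H10.TU (NegFam SDe comb)
open Pool.Agent.H10.TU

namespace Pool.Agent.H93.TU

variable {n : ℕ}

section gen

variable {ι : Type*} [Fintype ι] [DecidableEq ι]
variable {L : AddSubgroup (ι → ℤ)} {q Q : (ι → ℝ) → ℝ} {R a : ℝ}

/-- **The perturbation has the step property.** -/
theorem caseB_pert (F : Type*) [Field F] {g : (ι → ℝ) → ℝ} {Z : Finset (ι → ℝ)}
    (h : Tot L q Q g R a Z) {z₀ : ι → ℝ} {b : ℕ}
    (hidx : ∀ z ∈ Z, g z = g z₀ → b ≤ sigNeg (hess g z))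
    (hfr : ∀ b₁ b₂, b₁ < g z₀ → g z₀ < b₂ → (∀ z ∈ Z, b₁ ≤ g z → g z ≤ b₂ → g z = g z₀) →
      ∃ᶠ M : ℕ in atTop, LB F (lam L (2 ^ M)) (Xm q R (2 ^ M)) (Am q Q R a (2 ^ M))
        (Lv q Q g R a b₁ (2 ^ M)) (Lv q Q g R a b₂ (2 ^ M)) b) {r₀ : ℝ}
    (hin : ∀ z ∈ Z, ∀ y ∈ Metric.closedBall z r₀, q y < R ∧ -a < Q y) {δ : ℝ} (hδ : 0 < δ) :
    ∃ z ∈ Z, g z = g z₀ ∧ sigNeg (hess g z) = b ∧ Pert b r₀ g z δ := by
  classical
  obtain ⟨α, β, -, h2, h3, -, h5⟩ := CaseB_thin (Z.image g) (g z₀) (g z₀ - 1) (g z₀ + 1)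
    (by linarith) (by linarith)
  have h5' : ∀ z ∈ Z, α ≤ g z → g z ≤ β → g z = g z₀ := fun z hz =>
    h5 _ (Finset.mem_image_of_mem g hz)
  have hα : α ∉ Z.image g := fun hm => by
    have := h5 α hm le_rfl (h2.trans h3).le
    linarith
  have hβ : β ∉ Z.image g := fun hm => by
    have := h5 β hm (h2.trans h3).le le_rfl
    linarith
  have hlt := h2.trans h3
  obtain ⟨r, f', X, hSD, hT, -, -⟩ := Pool.Agent.H18.TU.sda_tot h hlt hα hβ hδ
  set Z' := (Z.filter fun z => ¬ (α < g z ∧ g z < β)) ∪ X with hZ'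
  -- points outside the band are unchanged
  have hun : ∀ z ∈ Z, ¬ (α < g z ∧ g z < β) → f' z = g z := by
    intro z hz hno
    refine (hSD.out z fun z' hz' l hl hmem => ?_).self_of_nhds
    have h6 := hSD.ins z' hz' l hl z hmem
    exact hno ⟨h6.2.2.1, h6.2.2.2.1⟩
  have hX : ∀ x ∈ X, α < f' x ∧ f' x < β := fun x hx =>
    ⟨(hSD.band.mem x hx).2.2.2.1, (hSD.band.mem x hx).2.2.2.2⟩
  have hmem : ∀ x ∈ Z', α < f' x → f' x < β → x ∈ X := by
    intro x hx h6 h7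
    rcases Finset.mem_union.1 hx with h8 | h8
    · rw [Finset.mem_filter] at h8
      rw [hun x h8.1 h8.2] at h6 h7
      exact absurd ⟨h6, h7⟩ h8.2
    · exact h8
  have hα' : α ∉ Z'.image f' := fun hm => by
    obtain ⟨x, hx, he⟩ := Finset.mem_image.1 hm
    rcases Finset.mem_union.1 hx with h8 | h8
    · rw [Finset.mem_filter] at h8
      rw [hun x h8.1 h8.2] at he
      exact hα (by rw [← he]; exact Finset.mem_image_of_mem g h8.1)
    · exact absurd (hX x h8).1 (by rw [he]; exact lt_irrefl _)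
  have hβ' : β ∉ Z'.image f' := fun hm => by
    obtain ⟨x, hx, he⟩ := Finset.mem_image.1 hm
    rcases Finset.mem_union.1 hx with h8 | h8
    · rw [Finset.mem_filter] at h8
      rw [hun x h8.1 h8.2] at he
      exact hβ (by rw [← he]; exact Finset.mem_image_of_mem g h8.1)
    · exact absurd (hX x h8).2 (by rw [he]; exact lt_irrefl _)
  have hinj : ∀ x ∈ Z', α < f' x → f' x < β → ∀ x' ∈ Z', f' x = f' x' → x' = x := by
    intro x hx h6 h7 x' hx' he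
    exact (hSD.inj x (hmem x hx h6 h7) x' (hmem x' hx' (he ▸ h6) (he ▸ h7)) he).symm
  obtain ⟨x, hx, hxb, hbx, hthin⟩ := caseB_point F hT hlt hα' hβ'
    (fun m => ⟨hSD.lv α (Or.inl le_rfl) m, hSD.lv β (Or.inr le_rfl) m⟩)
    (fun x hx h6 h7 => hSD.nd x (hmem x hx h6 h7)) hinj (hfr α β h2 h3 h5')
  have hxX := hmem x hx hxb.1 hxb.2
  obtain ⟨z, hz, hball, hlo, -, -⟩ := hSD.src x hxX
  rw [Finset.mem_filter] at hz
  have hgz : g z = g z₀ := h5' z hz.1 hz.2.1.le hz.2.2.le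
  refine ⟨z, hz.1, hgz, le_antisymm (hlo.trans hbx.le) (hidx z hz.1 hgz), f', x, hSD.near,
    fun p _ => hSD.d2 p, ?_, ?_⟩
  · rw [Metric.mem_ball, dist_eq_norm] at hball
    have h6 := hSD.rle
    have h7 := hSD.rpos
    linarith
  · exact Pool.Agent.H65.TU.stepP F hT hx hbx (hSD.nd x hxX)
      (fun z' hz' he => hinj x hx hxb.1 hxb.2 z' hz' he.symm) hthin (hin z hz.1)

end gen

theorem CaseC_D2 {E : Type*} [NormedAddCommGroup E] [NormedSpace ℝ E] {f g : E → ℝ} {z : E}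
    {c : ℝ} (h : ∀ᶠ x in 𝓝 z, g x = f x + c) :
    fderiv ℝ (fderiv ℝ g) z = fderiv ℝ (fderiv ℝ f) z := by
  have h1 : g =ᶠ[𝓝 z] fun x => f x + c := h
  have h2 : fderiv ℝ g =ᶠ[𝓝 z] fderiv ℝ fun x => f x + c := h1.fderiv
  have h3 : (fderiv ℝ fun x => f x + c) = fderiv ℝ f := by
    funext x
    exact fderiv_add_const c
  rw [h3] at h2
  exact h2.fderiv_eq

/-- **Case 1.** -/
theorem case1 {S : ℕ → Pt n → ℝ} {f : ℕ → Pt n → Pt n} (hS : ∀ j, Gen (S j) (f j)) {N : ℕ}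
    [NeZero N] (hper : ∀ j, S (j + N) = S j) (hfper : ∀ j, f (j + N) = f j)
    (W : Finset (Pt n)) (hW : ∀ w, flw f N w = w ↔ ∃ w' ∈ W, w - w' ∈ Zn n)
    (hWd : ∀ w ∈ W, ∀ w' ∈ W, w - w' ∈ Zn n → w = w') (hno : ¬ Wrong S f N) :
    ∃ w, flw f N w = w ∧ MeanIdx S f N w 0 ∧ ind S f N w = n * (N - 1) ∧
      ∀ e : Fin (n * (N - 1)) → (Iz n N → ℝ), NegFam (fS S N) (zw f N w) e →
        SDe (fS S N) (zw f N w) e := by
  classical
  unfold Wrong at hno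
  push Not at hno
  obtain ⟨C, hC⟩ := hno
  obtain ⟨C₀, hC₀⟩ := fS_grad hS N
  obtain ⟨R₀, hR₀, hRgd⟩ := Pool.Agent.H45.AC.exists_Rgd n N one_pos (C + C₀)
  obtain ⟨q, hq, -, g, hg, hsep, R, hR, hna⟩ := hC 1 one_pos R₀ 0
  have hC' : ∀ y b, |fderiv ℝ g y (Pi.single b 1) - DK n N y b| ≤ C + C₀ := fun y b => by
    have h1 := abs_sub_le (fderiv ℝ g y (Pi.single b 1)) (fderiv ℝ (fS S N) y (Pi.single b 1))
      (DK n N y b)
    have h2 := hg.grad y b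
    have h3 := hC₀ y b
    linarith
  have hT := CaseA_tot hS W hW hWd hg hC' (hRgd R hR)
  have hfix : ∀ w ∈ W, flw f N w = w := fun w hw =>
    (hW w).2 ⟨w, hw, by rw [sub_self]; exact (Zn n).zero_mem⟩
  -- the second derivative of `g` at the critical points
  have hcrit : ∀ w ∈ W, fderiv ℝ (fS S N) (zw f N w) = 0 := fun w hw => by
    rw [← hg.crit]
    exact (hT.mem _ (Finset.mem_image_of_mem _ hw)).1
  have hD2 : ∀ w ∈ W, fderiv ℝ (fderiv ℝ g) (zw f N w) = fderiv ℝ (fderiv ℝ (fS S N))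
      (zw f N w) := fun w hw => by
    obtain ⟨c, hc⟩ := hg.loc _ (hcrit w hw)
    exact CaseC_D2 hc
  have hsig : ∀ w ∈ W, sigNeg (hess g (zw f N w)) = ind S f N w := fun w hw => by
    rw [← fS_sigNeg hS N w]
    unfold hess
    rw [hD2 w hw]
  obtain ⟨w₀, hw₀, -, hlab, hfr⟩ := caseA hS hper hfper W hW hWd hg hsep hC' (hRgd R hR)
    (fun w t h1 h2 h3 => hna w t h1 h2 h3)
    (Pool.Agent.H16.TU.top_HR_two (ZMod q) n N (hR₀.trans_le hR) (hR₀.trans_le hR))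
  -- a small radius
  obtain ⟨r₀, hin, hr₀⟩ : ∃ r₀ : ℝ, (∀ z ∈ W.image (zw f N),
      ∀ y ∈ Metric.closedBall z r₀, qK n N y < R ∧ -R < QK n N y) ∧ 0 < r₀ := by
    have h1 : ∀ᶠ r in 𝓝[>] (0 : ℝ), ∀ z ∈ W.image (zw f N),
        ∀ y ∈ Metric.closedBall z r, qK n N y < R ∧ -R < QK n N y := by
      rw [Filter.eventually_all_finset]
      intro z hz
      have h2 : ∀ᶠ y in 𝓝 z, qK n N y < R ∧ -R < QK n N y :=
        ((hT.dm.q1.continuous.tendsto z).eventually_lt_const (hT.mem z hz).2.1).and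
          ((hT.dm.Q1.continuous.tendsto z).eventually_const_lt (hT.mem z hz).2.2)
      obtain ⟨s, hs, hs'⟩ := Metric.eventually_nhds_iff.1 h2
      refine nhdsWithin_le_nhds ?_
      filter_upwards [gt_mem_nhds hs] with r hr y hy
      exact hs' ((Metric.mem_closedBall.1 hy).trans_lt hr)
    exact (h1.and self_mem_nhdsWithin).exists
  set Z0 := (W.image (zw f N)).filter fun z => g z = g (zw f N w₀) ∧
    sigNeg (hess g z) = n * (N - 1) with hZ0
  obtain ⟨z, hz, hSD⟩ := Pool.Agent.H1.TU.case1_limit hr₀ hg.smooth Z0 (fun z hz => by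
    rw [hZ0, Finset.mem_filter] at hz
    exact (hT.mem z hz.1).1) fun δ hδ => by
    obtain ⟨z, hz, h1, h2, h3⟩ := caseB_pert (ZMod q) hT (z₀ := zw f N w₀)
      (b := n * (N - 1)) (fun z hz he => by
        obtain ⟨w, hw, rfl⟩ := Finset.mem_image.1 hz
        rw [hsig w hw]
        exact (hlab w hw he).2) (fun b₁ b₂ h1 h2 h3 => hfr b₁ b₂ h1 h2 fun w hw =>
          h3 _ (Finset.mem_image_of_mem (zw f N) hw)) hin hδ
    exact ⟨z, Finset.mem_filter.2 ⟨hz, h1, h2⟩, h3⟩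
  rw [hZ0, Finset.mem_filter] at hz
  obtain ⟨hz, h1, h2⟩ := hz
  obtain ⟨w, hw, rfl⟩ := Finset.mem_image.1 hz
  refine ⟨w, hfix w hw, (hlab w hw h1).1, by rw [← hsig w hw]; exact h2, fun e he => ?_⟩
  obtain ⟨c, hc⟩ := hg.loc _ (hcrit w hw)
  exact Pool.Agent.H1.TU.SDe_congr hc (hSD e (Pool.Agent.H1.TU.NegFam_congr hc he))

end Pool.Agent.H93.TU
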