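import Pool.Agent.H93.TU.LastV
import Pool.Agent.H45.AC.Sep2

/-!
# Project TU: sub-bands which carry the bottom class
-/

set_option autoImplicit false

namespace Pool.Agent.H93.TU

open Filter Topology QuadraticForm
open Pool.Agent.H47.ST
open Pool.Agent.H47.QG (hess)

/-- subdivision of a band -/
theorem LB.split {ι : Type*} [Fintype ι] {F : Type*} [Field F] {L : AddSubgroup (ι → ℤ)}
    {X A₀ : Set (ι → ℤ)} (A : ℕ → Set (ι → ℤ)) (M : ℕ) {b : ℕ}
    (h : LB F L X A₀ (A 0) (A M) b) : ∃ i < M, LB F L X A₀ (A i) (A (i + 1)) b := by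
  classical
  by_contra hcon
  push Not at hcon
  obtain ⟨h1, h2⟩ := h
  have key : ∀ i ≤ M, ∃ u ∈ co (F := F) L X (A i) (b + 1), dX X u = 0 ∧
      ∀ y ∈ co (F := F) L X A₀ b, u ≠ dX X y := by
    intro i
    induction i with
    | zero => exact fun _ => h1
    | succ i ih =>
      intro hi
      have h3 := ih (by omega)
      by_contra h4
      push Not at h4
      refine hcon i (by omega) ⟨h3, fun u hu hd => ?_⟩
      exact h4 u hu hd
  obtain ⟨u, hu, hd, hy⟩ := key M le_rfl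
  obtain ⟨y, hy1, hy2⟩ := h2 u hu hd
  exact hy y hy1 hy2

variable {ι : Type*} [Fintype ι] [DecidableEq ι]
variable {L : AddSubgroup (ι → ℤ)} {q Q f : (ι → ℝ) → ℝ} {R a : ℝ} {Z : Finset (ι → ℝ)}

/-- **A critical value inside a band which carries the class.** -/
theorem LB_value (F : Type*) [Field F] (h : Tot L q Q f R a Z) {b : ℕ} {β₁ β₂ : ℝ}
    (hlt : β₁ < β₂) (hβ₁ : β₁ ∉ Z.image f) (hβ₂ : β₂ ∉ Z.image f)
    (hfr : ∃ᶠ M : ℕ in atTop, LB F (lam L (2 ^ M)) (Xm q R (2 ^ M)) (Am q Q R a (2 ^ M))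
      (Lv q Q f R a β₁ (2 ^ M)) (Lv q Q f R a β₂ (2 ^ M)) b) :
    ∃ z₀ ∈ Z, (β₁ < f z₀ ∧ f z₀ < β₂) ∧ ∀ b₁ b₂, b₁ < f z₀ → f z₀ < b₂ →
      (∀ z ∈ Z, b₁ ≤ f z → f z ≤ b₂ → f z = f z₀) →
      ∃ᶠ M : ℕ in atTop, LB F (lam L (2 ^ M)) (Xm q R (2 ^ M)) (Am q Q R a (2 ^ M))
        (Lv q Q f R a b₁ (2 ^ M)) (Lv q Q f R a b₂ (2 ^ M)) b := by
  classical
  obtain ⟨M0, α, h0, hM0, hα, hV1, hV2⟩ :=
    Pool.Agent.H45.AC.levels_between (Z.image f) hlt hβ₁ hβ₂
  have hinvX : ∀ M : ℕ, Inv (lam L (2 ^ M)) (Xm q R (2 ^ M)) := fun M =>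
    Xm_inv h.dm.qp R (by positivity)
  have hinv : ∀ (c : ℝ) (M : ℕ), Inv (lam L (2 ^ M)) (Lv q Q f R a c (2 ^ M)) := fun c M =>
    Lv_inv h.dm.qp h.dm.Qp h.per R a c (by positivity)
  -- the levels increase
  have hmono : ∀ m ≤ M0, ∀ i ≤ m, α i ≤ α m := by
    intro m
    induction m with
    | zero =>
      intro _ i hi
      rw [Nat.le_zero.1 hi]
    | succ m ih =>
      intro hm i hi
      rcases Nat.lt_or_ge m i with h1 | h1
      · rw [show i = m + 1 by omega]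
      · exact (ih (by omega) i h1).trans (hα m (by omega)).le
  -- one sub-band for infinitely many grids
  obtain ⟨i, hi, hfr⟩ : ∃ i < M0, ∃ᶠ M : ℕ in atTop, LB F (lam L (2 ^ M)) (Xm q R (2 ^ M))
      (Am q Q R a (2 ^ M)) (Lv q Q f R a (α i) (2 ^ M)) (Lv q Q f R a (α (i + 1)) (2 ^ M)) b := by
    by_contra hcon
    push Not at hcon
    have h1 : ∀ᶠ M : ℕ in atTop, ∀ i ∈ Finset.range M0, ¬ LB F (lam L (2 ^ M)) (Xm q R (2 ^ M))
        (Am q Q R a (2 ^ M)) (Lv q Q f R a (α i) (2 ^ M))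
        (Lv q Q f R a (α (i + 1)) (2 ^ M)) b := by
      rw [Filter.eventually_all_finset]
      intro i hi
      exact hcon i (Finset.mem_range.1 hi)
    obtain ⟨M, h2, h3⟩ := (hfr.and_eventually h1).exists
    rw [← h0, ← hM0] at h2
    obtain ⟨i, hi, h4⟩ := LB.split (fun i => Lv q Q f R a (α i) (2 ^ M)) M0 h2
    exact h3 i (Finset.mem_range.2 hi) h4
  have hlt : α i < α (i + 1) := hα i hi
  have hVi : α i ∉ Z.image f := hV1 i hi.le
  have hVi' : α (i + 1) ∉ Z.image f := hV1 (i + 1) hi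
  -- the band contains a critical value
  obtain ⟨z₀, hz₀, h1, h2⟩ : ∃ z₀ ∈ Z, α i < f z₀ ∧ f z₀ < α (i + 1) := by
    by_contra hcon
    push Not at hcon
    have hno : ∀ z ∈ Z, ¬ (α i ≤ f z ∧ f z ≤ α (i + 1)) := by
      rintro z hz ⟨h1, h2⟩
      have h3 : α i < f z := lt_of_le_of_ne h1 fun he =>
        hVi (by rw [he]; exact Finset.mem_image_of_mem f hz)
      exact hVi' (by
        rw [le_antisymm (hcon z hz h3) h2]; exact Finset.mem_image_of_mem f hz)
    obtain ⟨M, h3, h4⟩ := (hfr.and_eventually (h.acyclic F hlt hno)).exists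
    exact h3.ne (hinvX M) (hinv _ M) (Am_sub_Lv _ _) (Lv_mono q Q f R a hlt.le _)
      (Lv_sub_Xm _ _) (h4 b)
  refine ⟨z₀, hz₀, ⟨?_, ?_⟩, fun b₁ b₂ hb1 hb2 huniq => ?_⟩
  · rw [← h0]
    exact (hmono i hi.le 0 (Nat.zero_le _)).trans_lt h1
  · rw [← hM0]
    exact h2.trans_le (hmono M0 le_rfl (i + 1) hi)
  have hsame : ∀ z ∈ Z, α i ≤ f z → f z ≤ α (i + 1) → f z = f z₀ := by
    intro z hz h3 h4
    have h3' : α i < f z := lt_of_le_of_ne h3 fun he =>
      hVi (by rw [he]; exact Finset.mem_image_of_mem f hz)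
    have h4' : f z < α (i + 1) := lt_of_le_of_ne h4 fun he =>
      hVi' (by rw [← he]; exact Finset.mem_image_of_mem f hz)
    exact hV2 i hi _ (Finset.mem_image_of_mem f hz) _ (Finset.mem_image_of_mem f hz₀) h3' h4' h1 h2
  -- left end
  have hleft : ∀ᶠ M : ℕ in atTop, LB F (lam L (2 ^ M)) (Xm q R (2 ^ M)) (Am q Q R a (2 ^ M))
      (Lv q Q f R a (α i) (2 ^ M)) (Lv q Q f R a (α (i + 1)) (2 ^ M)) b →
      LB F (lam L (2 ^ M)) (Xm q R (2 ^ M)) (Am q Q R a (2 ^ M))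
      (Lv q Q f R a b₁ (2 ^ M)) (Lv q Q f R a (α (i + 1)) (2 ^ M)) b := by
    rcases le_or_gt b₁ (α i) with hle | hgt
    · exact Eventually.of_forall fun M hM => hM.left_anti (Lv_mono q Q f R a hle _)
    · have hno : ∀ z ∈ Z, ¬ (α i ≤ f z ∧ f z ≤ b₁) := by
        rintro z hz ⟨h3, h4⟩
        have h5 := hsame z hz h3 (h4.trans (hb1.le.trans h2.le))
        linarith
      filter_upwards [h.acyclic F hgt hno] with M hM hLB
      exact hLB.left (hinvX M) (hinv _ M) (Am_sub_Lv _ _) (Lv_mono q Q f R a hgt.le _)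
        (Lv_sub_Xm _ _) (hM b)
  -- right end
  have hright : ∀ᶠ M : ℕ in atTop, LB F (lam L (2 ^ M)) (Xm q R (2 ^ M)) (Am q Q R a (2 ^ M))
      (Lv q Q f R a b₁ (2 ^ M)) (Lv q Q f R a (α (i + 1)) (2 ^ M)) b →
      LB F (lam L (2 ^ M)) (Xm q R (2 ^ M)) (Am q Q R a (2 ^ M))
      (Lv q Q f R a b₁ (2 ^ M)) (Lv q Q f R a b₂ (2 ^ M)) b := by
    rcases le_or_gt (α (i + 1)) b₂ with hle | hgt
    · exact Eventually.of_forall fun M hM => hM.right_mono (Lv_mono q Q f R a hle _)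
    · have hno : ∀ z ∈ Z, ¬ (b₂ ≤ f z ∧ f z ≤ α (i + 1)) := by
        rintro z hz ⟨h3, h4⟩
        have h5 := hsame z hz (h1.le.trans (hb2.le.trans h3)) h4
        linarith
      filter_upwards [h.acyclic F hgt hno] with M hM hLB
      exact hLB.right (hinvX M) (hinv _ M) (Am_sub_Lv _ _) (Lv_mono q Q f R a hgt.le _)
        (Lv_sub_Xm _ _) (hM b)
  exact (hfr.and_eventually (hleft.and hright)).mono fun M hM => hM.2.2 (hM.2.1 hM.1)

/-- The band of a critical value with one critical point has rank at most one. -/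
theorem Tot.rank_one (F : Type*) [Field F] (h : Tot L q Q f R a Z) {b₁ b₂ : ℝ} (hlt : b₁ < b₂)
    (h1 : b₁ ∉ Z.image f) (h2 : b₂ ∉ Z.image f) {x : ι → ℝ} (hx : x ∈ Z)
    (hone : ∀ z ∈ Z, b₁ < f z → f z < b₂ → z = x)
    (hnd : sigNeg (hess f x) + sigPos (hess f x) = Fintype.card ι) :
    ∀ᶠ M : ℕ in atTop, ∀ j, HR F (lam L (2 ^ M)) (Lv q Q f R a b₂ (2 ^ M))
      (Lv q Q f R a b₁ (2 ^ M)) j (if sigNeg (hess f x) = j then 1 else 0) := by
  classical
  have hb := h.band hlt h1 h2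
  obtain ⟨g, X, r, hg, hM⟩ := window F hb
    (fun z X => X.card ≤ 1) (fun z hz r hr hiso => by
      rw [Finset.mem_filter] at hz
      have hzx := hone z hz.1 hz.2.1 hz.2.2
      subst hzx
      refine ⟨f, {z}, ⟨h.smooth, fun y _ => rfl, fun y hy => ?_, fun y hy => ?_, fun y hy => ?_,
        fun y hy => ?_, fun y hy => ?_⟩, le_of_eq (Finset.card_singleton z)⟩
      · rw [Finset.mem_singleton]
        constructor
        · exact fun h5 => hiso y hy h5
        · intro h5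
          rw [h5]
          exact (h.mem z hz.1).1
      · rw [Finset.mem_singleton] at hy
        subst hy
        exact Metric.mem_ball_self (by linarith)
      · rw [Finset.mem_singleton] at hy
        subst hy
        exact hnd
      · rw [Finset.mem_singleton] at hy
        subst hy
        exact le_rfl
      · rw [Finset.mem_singleton] at hy
        subst hy
        exact hnd.le)
  filter_upwards [hM] with M hM' j
  refine RK.mono_r (hM' j) ?_
  have hc : ∀ z ∈ Z.filter (fun z => b₁ < f z ∧ f z < b₂),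
      ((X z).filter fun y => sigNeg (hess (g z) y) = j).card ≤
        if sigNeg (hess f x) = j then 1 else 0 := by
    intro z hz
    obtain ⟨hLD, hcard⟩ := hg z hz
    rw [Finset.mem_filter] at hz
    have hzx := hone z hz.1 hz.2.1 hz.2.2
    subst hzx
    by_cases hj : sigNeg (hess f z) = j
    · rw [if_pos hj]
      exact (Finset.card_filter_le _ _).trans hcard
    · rw [if_neg hj, Nat.le_zero, Finset.card_eq_zero, Finset.filter_eq_empty_iff]
      intro y hy hyj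
      have h3 := hLD.lo y hy
      have h4 := hLD.hi y hy
      omega
  have hsub : (Z.filter fun z => b₁ < f z ∧ f z < b₂).card ≤ 1 := by
    rw [Finset.card_le_one]
    intro z hz z' hz'
    rw [Finset.mem_filter] at hz hz'
    rw [hone z hz.1 hz.2.1 hz.2.2, hone z' hz'.1 hz'.2.1 hz'.2.2]
  refine (Finset.sum_le_card_nsmul _ _ _ hc).trans ?_
  rw [smul_eq_mul]
  calc _ ≤ 1 * (if sigNeg (hess f x) = j then 1 else 0) := Nat.mul_le_mul_right _ hsub
    _ = _ := one_mul _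

/-- a modification inside the band does not change the end levels -/
theorem Lv_inside {f' : (ι → ℝ) → ℝ} {b₁ b₂ : ℝ} (hlt : b₁ < b₂)
    (h : ∀ y, f' y = f y ∨ ((b₁ < f y ∧ f y < b₂) ∧ b₁ < f' y ∧ f' y < b₂)) (m : ℕ) :
    Lv q Q f' R a b₁ m = Lv q Q f R a b₁ m ∧ Lv q Q f' R a b₂ m = Lv q Q f R a b₂ m := by
  clear hlt
  constructor
  · ext v
    have h1 : f' (ps m v) ≤ b₁ ↔ f (ps m v) ≤ b₁ := by
      rcases h (ps m v) with h2 | ⟨h2, h3⟩
      · rw [h2]
      · exact ⟨fun h4 => absurd h3.1 (not_lt.2 h4), fun h4 => absurd h2.1 (not_lt.2 h4)⟩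
    simp only [Lv, Set.mem_ofPred_eq, h1]
  · ext v
    have h1 : f' (ps m v) ≤ b₂ ↔ f (ps m v) ≤ b₂ := by
      rcases h (ps m v) with h2 | ⟨h2, h3⟩
      · rw [h2]
      · exact ⟨fun _ => h2.2.le, fun _ => h3.2.le⟩
    simp only [Lv, Set.mem_ofPred_eq, h1]

end Pool.Agent.H93.TU
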