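import Pool.Agent.H93.TU.CaseA
import Pool.Agent.H1.TU.StepP

/-!
# Project TU: the perturbed critical point with the step property
-/

set_option autoImplicit false

open Module QuadraticForm Filter Topology
open Pool.Agent.H47.QG (Pt action flw oseq Gen ind hess Zn MeanIdx)
open Pool.Agent.H47.ST
open Pool.Agent.H75.TH (Near Sepd Alive Wrong)
open Pool.Agent.H45.AC (Rgd)
open Pool.Agent.H1.TU (StepP Pert)

namespace Pool.Agent.H93.TU

section gen

variable {ι : Type*} [Fintype ι] [DecidableEq ι]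

/-- levels close to a value, on both sides, avoiding the other values -/
theorem CaseB_thin (V : Finset ℝ) (v lo hi : ℝ) (hlo : lo < v) (hhi : v < hi) :
    ∃ b₁ b₂, lo < b₁ ∧ b₁ < v ∧ v < b₂ ∧ b₂ < hi ∧ ∀ u ∈ V, b₁ ≤ u → u ≤ b₂ → u = v := by
  have hev : ∀ᶠ η in 𝓝[>] (0 : ℝ), ∀ u ∈ V, u ≠ v → η < |u - v| := by
    rw [Filter.eventually_all_finset]
    intro u _
    by_cases h : u = v
    · exact Filter.Eventually.of_forall fun η hne => absurd h hne
    · have : 0 < |u - v| := abs_pos.mpr (sub_ne_zero.mpr h)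
      refine nhdsWithin_le_nhds ?_
      filter_upwards [gt_mem_nhds this] with η hη _
      exact hη
  have hev2 : ∀ᶠ η in 𝓝[>] (0 : ℝ), η < v - lo ∧ η < hi - v :=
    nhdsWithin_le_nhds ((gt_mem_nhds (sub_pos.2 hlo)).and (gt_mem_nhds (sub_pos.2 hhi)))
  obtain ⟨η, ⟨h1, h2, h3⟩, h0⟩ := ((hev.and hev2).and self_mem_nhdsWithin).exists
  have h0 : 0 < η := h0
  refine ⟨v - η, v + η, by linarith, by linarith, by linarith, by linarith, fun u hu h4 h5 => ?_⟩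
  by_contra hne
  have h6 := h1 u hu hne
  have h7 : |u - v| ≤ η := by
    rw [abs_le]
    constructor <;> linarith
  linarith

variable {L : AddSubgroup (ι → ℤ)} {q Q g : (ι → ℝ) → ℝ} {R a : ℝ} {Z : Finset (ι → ℝ)}

/-- **A nondegenerate critical point which carries the class.** `Z'` are the critical points of
the perturbation `f'`; those with values in `(α, β)` are nondegenerate and have different
values. -/
theorem caseB_point (F : Type*) [Field F] {f' : (ι → ℝ) → ℝ} {Z' : Finset (ι → ℝ)}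
    (h' : Tot L q Q f' R a Z') {α β : ℝ} (hlt : α < β) (hα : α ∉ Z'.image f')
    (hβ : β ∉ Z'.image f')
    (hlv : ∀ m, Lv q Q f' R a α m = Lv q Q g R a α m ∧ Lv q Q f' R a β m = Lv q Q g R a β m)
    (hnd : ∀ x ∈ Z', α < f' x → f' x < β →
      sigNeg (hess f' x) + sigPos (hess f' x) = Fintype.card ι)
    (hinj : ∀ x ∈ Z', α < f' x → f' x < β → ∀ x' ∈ Z', f' x = f' x' → x' = x) {b : ℕ}
    (hfr : ∃ᶠ M : ℕ in atTop, LB F (lam L (2 ^ M)) (Xm q R (2 ^ M)) (Am q Q R a (2 ^ M))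
      (Lv q Q g R a α (2 ^ M)) (Lv q Q g R a β (2 ^ M)) b) :
    ∃ x ∈ Z', (α < f' x ∧ f' x < β) ∧ sigNeg (hess f' x) = b ∧
      ∀ b₁ b₂, b₁ < f' x → f' x < b₂ → (∀ z ∈ Z', b₁ ≤ f' z → f' z ≤ b₂ → f' z = f' x) →
      ∃ᶠ M : ℕ in atTop, LB F (lam L (2 ^ M)) (Xm q R (2 ^ M)) (Am q Q R a (2 ^ M))
        (Lv q Q f' R a b₁ (2 ^ M)) (Lv q Q f' R a b₂ (2 ^ M)) b := by
  classical
  have hfr' : ∃ᶠ M : ℕ in atTop, LB F (lam L (2 ^ M)) (Xm q R (2 ^ M)) (Am q Q R a (2 ^ M))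
      (Lv q Q f' R a α (2 ^ M)) (Lv q Q f' R a β (2 ^ M)) b :=
    hfr.mono fun M hM => by rw [(hlv _).1, (hlv _).2]; exact hM
  obtain ⟨x, hx, hxb, hthin⟩ := LB_value F h' hlt hα hβ hfr'
  refine ⟨x, hx, hxb, ?_, hthin⟩
  obtain ⟨b₁, b₂, h1, h2, h3, h4, h5⟩ := CaseB_thin (Z'.image f') (f' x) α β hxb.1 hxb.2
  have h5' : ∀ z ∈ Z', b₁ ≤ f' z → f' z ≤ b₂ → f' z = f' x := fun z hz =>
    h5 _ (Finset.mem_image_of_mem f' hz)
  have hb1 : b₁ ∉ Z'.image f' := fun hm => by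
    have := h5 b₁ hm le_rfl (h2.trans h3).le
    linarith
  have hb2 : b₂ ∉ Z'.image f' := fun hm => by
    have := h5 b₂ hm (h2.trans h3).le le_rfl
    linarith
  have hr := h'.rank_one F (h2.trans h3) hb1 hb2 hx
    (fun z hz h6 h7 => hinj x hx hxb.1 hxb.2 z hz (h5' z hz h6.le h7.le).symm)
    (hnd x hx hxb.1 hxb.2)
  obtain ⟨M, h6, h7⟩ := ((hthin b₁ b₂ h2 h3 h5').and_eventually hr).exists
  by_contra hne
  have h8 := h7 b
  rw [if_neg hne] at h8
  exact h6.ne (Xm_inv h'.dm.qp R (by positivity))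
    (Lv_inv h'.dm.qp h'.dm.Qp h'.per R a b₂ (by positivity)) (Am_sub_Lv _ _)
    (Lv_mono _ _ _ R a (h2.trans h3).le _) (Lv_sub_Xm _ _) h8

end gen

end Pool.Agent.H93.TU
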