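import Pool.Agent.H47.ST.CellA

/-!
# Project TU: the last band whose cohomology maps nontrivially to the bottom class
-/

set_option autoImplicit false

namespace Pool.Agent.H93.TU

open Pool.Agent.H47.ST

variable {ι : Type*} [Fintype ι] {F : Type*} [Field F]

/-- cohomology of rank zero: closed cochains are exact -/
theorem LastB_HR {L : AddSubgroup (ι → ℤ)} {B A : Set (ι → ℤ)} {b : ℕ} :
    HR F L B A b 0 ↔ ∀ u ∈ co (F := F) L B A (b + 1), dX B u = 0 →
      ∃ y ∈ co (F := F) L B A b, u = dX B y := by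
  unfold HR
  rw [RK_zero]
  constructor
  · intro h u hu hd
    obtain ⟨y, hy, hy'⟩ := h u hu (by rw [hd]; exact Submodule.zero_mem _)
    rw [Submodule.mem_bot, sub_eq_zero] at hy'
    exact ⟨y, hy, hy'⟩
  · intro h u hu hd
    rw [Submodule.mem_bot] at hd
    obtain ⟨y, hy, hy'⟩ := h u hu hd
    refine ⟨y, hy, ?_⟩
    rw [Submodule.mem_bot, sub_eq_zero]
    exact hy'

/-- **The last band.** If the pair `(X, A 0)` has cohomology in dimension `b`, then for some band
`(A (i + 1), A i)` there is a closed cochain `u`, vanishing on `A i`, not exact modulo `A 0`, while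
all closed cochains vanishing on `A (i + 1)` are exact modulo `A 0`. -/
theorem last_band {L : AddSubgroup (ι → ℤ)} {X : Set (ι → ℤ)} (A : ℕ → Set (ι → ℤ)) (M : ℕ)
    (hAM : X ⊆ A M) {b : ℕ} (h : ¬ HR F L X (A 0) b 0) :
    ∃ i < M, ∃ u ∈ co (F := F) L X (A i) (b + 1), dX X u = 0 ∧
      (∀ y ∈ co (F := F) L X (A 0) b, u ≠ dX X y) ∧
      ∀ u' ∈ co (F := F) L X (A (i + 1)) (b + 1), dX X u' = 0 →
        ∃ y ∈ co (F := F) L X (A 0) b, u' = dX X y := by
  classical
  by_contra hcon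
  push Not at hcon
  -- every level has a closed cochain which is not exact
  have key : ∀ i ≤ M, ∃ u ∈ co (F := F) L X (A i) (b + 1), dX X u = 0 ∧
      ∀ y ∈ co (F := F) L X (A 0) b, u ≠ dX X y := by
    intro i
    induction i with
    | zero =>
      intro _
      rw [LastB_HR] at h
      push Not at h
      obtain ⟨u, hu, hd, hy⟩ := h
      exact ⟨u, hu, hd, hy⟩
    | succ i ih =>
      intro hi
      obtain ⟨u, hu, hd, hy⟩ := ih (by omega)
      obtain ⟨u', hu', hd', hy'⟩ := hcon i (by omega) u hu hd hy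
      exact ⟨u', hu', hd', hy'⟩
  obtain ⟨u, hu, -, hy⟩ := key M le_rfl
  refine hy 0 (Submodule.zero_mem _) ?_
  rw [map_zero]
  ext σ
  by_contra hσ
  obtain ⟨h1, h2, -⟩ := hu.2 σ hσ
  exact h2 fun v hv => hAM (h1.2 v hv)

/-- the cochain of the last band is not exact in the band -/
theorem last_band_ne {L : AddSubgroup (ι → ℤ)} {X A₀ A B : Set (ι → ℤ)} {b : ℕ}
    (hX : Inv L X) (h0 : A₀ ⊆ A) (hAB : A ⊆ B) (hBX : B ⊆ X) {u : Co ι F}
    (hu : u ∈ co (F := F) L X A (b + 1)) (hd : dX X u = 0)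
    (hne : ∀ y ∈ co (F := F) L X A₀ b, u ≠ dX X y)
    (hex : ∀ u' ∈ co (F := F) L X B (b + 1), dX X u' = 0 →
      ∃ y ∈ co (F := F) L X A₀ b, u' = dX X y) :
    (∀ y ∈ co (F := F) L X A b, u - dX X y ∉ co (F := F) L X B (b + 1)) ∧
      (Inv L B → ¬ HR F L B A b 0) := by
  have h1 : ∀ y ∈ co (F := F) L X A b, u - dX X y ∉ co (F := F) L X B (b + 1) := by
    intro y hy hmem
    obtain ⟨y', hy', h2⟩ := hex _ hmem (by rw [map_sub, hd, dX_dX, sub_zero])
    refine hne (y + y') (Submodule.add_mem _ (co_anti h0 b hy) hy') ?_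
    rw [map_add, ← h2]
    abel
  refine ⟨h1, fun hB hHR => ?_⟩
  have h2 := HR.rel (F := F) hX hB hAB hBX hHR
  unfold HK at h2
  rw [RK_zero] at h2
  obtain ⟨y, hy, hy'⟩ := h2 u hu (by rw [hd]; exact Submodule.zero_mem _)
  exact h1 y hy hy'

end Pool.Agent.H93.TU
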