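import Pool.Agent.H10.TU.Lev1
import Pool.Agent.H47.QG.IdxA

/-!
# Project TU: an orthogonal family of negative vectors
-/

set_option autoImplicit false

open Module QuadraticForm
open Pool.Agent.H47.QG (hess hess_apply exists_sigNeg)
open Pool.Agent.H10.TU

namespace Pool.Agent.H93.TU

/-- an orthogonal family of negative vectors, as long as the index -/
theorem exists_negfam {E : Type*} [NormedAddCommGroup E] [NormedSpace ℝ E]
    [FiniteDimensional ℝ E] {f : E → ℝ} (hf : ContDiff ℝ 2 f) (z : E) {d : ℕ}
    (hd : sigNeg (hess f z) = d) : ∃ e : Fin d → E, NegFam f z e := by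
  obtain ⟨W, hW, hneg⟩ := exists_sigNeg (hess f z)
  rw [hd] at hW
  let B : LinearMap.BilinForm ℝ W :=
    LinearMap.mk₂ ℝ (fun v w : W => D2 f z v w)
      (fun a b c => by simp only [Submodule.coe_add, map_add, add_apply])
      (fun a b c => by simp only [Submodule.coe_smul, map_smul, smul_apply])
      (fun a b c => by simp only [Submodule.coe_add, map_add])
      (fun a b c => by simp only [Submodule.coe_smul, map_smul])
  have hB : LinearMap.IsSymm B := ⟨fun v w => D2_sym hf z v w⟩
  obtain ⟨v, hv⟩ := LinearMap.BilinForm.exists_orthogonal_basis (K := ℝ) (V := W) hB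
  have hc : finrank ℝ W = d := hW
  subst hc
  refine ⟨fun i => v i, fun i j hij => ?_, fun i => ?_⟩
  · exact hv hij
  · have h1 := hneg (v i) (v i).2 (fun h0 => v.ne_zero i (Subtype.ext h0))
    exact h1

end Pool.Agent.H93.TU
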